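import Pool.Agent.Y171.CE.Stm

/-!
# CE-DRIFT: drift of the degree under a random unipotent step
-/

set_option autoImplicit false

open Polynomial Matrix

namespace Pool.Agent.Y344.CE.Drift

open Pool.Agent.Y171.CE

variable {p : ℕ}

theorem le_dg (γ : SL2 (ZMod p)[X]) (i j : Fin 2) : (γ.1 i j).natDegree ≤ dg γ := by
  unfold dg
  exact le_trans (Finset.le_sup (f := fun j : Fin 2 => (γ.1 i j).natDegree) (Finset.mem_univ j))
    (Finset.le_sup (f := fun i : Fin 2 => Finset.univ.sup (fun j : Fin 2 => (γ.1 i j).natDegree))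
      (Finset.mem_univ i))

theorem dg_le {γ : SL2 (ZMod p)[X]} {n : ℕ} (h : ∀ i j, (γ.1 i j).natDegree ≤ n) : dg γ ≤ n := by
  unfold dg
  exact Finset.sup_le fun i _ => Finset.sup_le fun j _ => h i j

theorem ex_dg (γ : SL2 (ZMod p)[X]) : ∃ i j, (γ.1 i j).natDegree = dg γ := by
  obtain ⟨i, -, hi⟩ := Finset.exists_mem_eq_sup (Finset.univ : Finset (Fin 2))
    Finset.univ_nonempty (fun i : Fin 2 => Finset.univ.sup (fun j : Fin 2 => (γ.1 i j).natDegree))
  obtain ⟨j, -, hj⟩ := Finset.exists_mem_eq_sup (Finset.univ : Finset (Fin 2))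
    Finset.univ_nonempty (fun j : Fin 2 => (γ.1 i j).natDegree)
  refine ⟨i, j, ?_⟩
  unfold dg
  rw [hi, hj]

theorem ent0 (N : NilT p) (γ : SL2 (ZMod p)[X]) (j : Fin 2) :
    (st (X : (ZMod p)[X]) N * γ).1 0 j =
      (1 + X * C N.1.1) * γ.1 0 j + X * C N.1.2.1 * γ.1 1 j := by
  change ((st (X : (ZMod p)[X]) N).1 * γ.1) 0 j = _
  rw [Matrix.mul_apply, Fin.sum_univ_two]
  rfl

theorem ent1 (N : NilT p) (γ : SL2 (ZMod p)[X]) (j : Fin 2) :
    (st (X : (ZMod p)[X]) N * γ).1 1 j =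
      X * C N.1.2.2 * γ.1 0 j + (1 - X * C N.1.1) * γ.1 1 j := by
  change ((st (X : (ZMod p)[X]) N).1 * γ.1) 1 j = _
  rw [Matrix.mul_apply, Fin.sum_univ_two]
  rfl

theorem coef0 (N : NilT p) (γ : SL2 (ZMod p)[X]) (j : Fin 2) (n : ℕ) :
    ((st (X : (ZMod p)[X]) N * γ).1 0 j).coeff (n + 1) =
      (γ.1 0 j).coeff (n + 1) + N.1.1 * (γ.1 0 j).coeff n + N.1.2.1 * (γ.1 1 j).coeff n := by
  rw [ent0, add_mul, one_mul, mul_assoc, mul_assoc, coeff_add, coeff_add, coeff_X_mul,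
    coeff_X_mul, coeff_C_mul, coeff_C_mul]

theorem coef1 (N : NilT p) (γ : SL2 (ZMod p)[X]) (j : Fin 2) (n : ℕ) :
    ((st (X : (ZMod p)[X]) N * γ).1 1 j).coeff (n + 1) =
      N.1.2.2 * (γ.1 0 j).coeff n + ((γ.1 1 j).coeff (n + 1) - N.1.1 * (γ.1 1 j).coeff n) := by
  rw [ent1, sub_mul, one_mul, mul_assoc, mul_assoc, coeff_add, coeff_sub, coeff_X_mul,
    coeff_X_mul, coeff_C_mul, coeff_C_mul]

theorem coef0' (N : NilT p) (γ : SL2 (ZMod p)[X]) (j : Fin 2) :
    ((st (X : (ZMod p)[X]) N * γ).1 0 j).coeff 0 = (γ.1 0 j).coeff 0 := by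
  rw [ent0, add_mul, one_mul, mul_assoc, mul_assoc, coeff_add, coeff_add, coeff_X_mul_zero,
    coeff_X_mul_zero, add_zero, add_zero]

theorem coef1' (N : NilT p) (γ : SL2 (ZMod p)[X]) (j : Fin 2) :
    ((st (X : (ZMod p)[X]) N * γ).1 1 j).coeff 0 = (γ.1 1 j).coeff 0 := by
  rw [ent1, sub_mul, one_mul, mul_assoc, mul_assoc, coeff_add, coeff_sub, coeff_X_mul_zero,
    coeff_X_mul_zero, sub_zero, zero_add]

theorem dg_step (N : NilT p) (γ : SL2 (ZMod p)[X]) :
    dg (st (X : (ZMod p)[X]) N * γ) ≤ dg γ + 1 := by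
  refine dg_le fun i j => ?_
  rw [natDegree_le_iff_coeff_eq_zero]
  intro n hn
  obtain ⟨m, rfl⟩ : ∃ m, n = m + 1 := ⟨n - 1, by omega⟩
  have z : ∀ i' m', dg γ < m' → (γ.1 i' j).coeff m' = 0 := fun i' m' hm =>
    coeff_eq_zero_of_natDegree_lt (lt_of_le_of_lt (le_dg γ i' j) hm)
  fin_cases i
  · change ((st (X : (ZMod p)[X]) N * γ).1 0 j).coeff (m + 1) = 0
    rw [coef0, z 0 _ (by omega), z 0 _ (by omega), z 1 _ (by omega)]
    simp
  · change ((st (X : (ZMod p)[X]) N * γ).1 1 j).coeff (m + 1) = 0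
    rw [coef1, z 0 _ (by omega), z 1 _ (by omega), z 1 _ (by omega)]
    simp

/-- the opposite of a nilpotent matrix -/
def neg (N : NilT p) : NilT p := ⟨(-N.1.1, -N.1.2.1, -N.1.2.2), by
  have h := N.2
  simp only
  linear_combination h⟩

theorem st_neg (N : NilT p) : st (X : (ZMod p)[X]) (neg N) * st (X : (ZMod p)[X]) N = 1 := by
  have h := N.2
  have h2 : (C N.1.1 * C N.1.1 + C N.1.2.1 * C N.1.2.2 : (ZMod p)[X]) = 0 := by
    rw [← C_mul, ← C_mul, ← C_add, h, C_0]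
  have hn1 : (C (neg N).1.1 : (ZMod p)[X]) = - C N.1.1 := C_neg
  have hn2 : (C (neg N).1.2.1 : (ZMod p)[X]) = - C N.1.2.1 := C_neg
  have hn3 : (C (neg N).1.2.2 : (ZMod p)[X]) = - C N.1.2.2 := C_neg
  apply Subtype.ext
  ext1 i j
  fin_cases i
  · change (st (X : (ZMod p)[X]) (neg N) * st (X : (ZMod p)[X]) N).1 0 _ = (1 : Matrix (Fin 2) (Fin 2) (ZMod p)[X]) 0 _
    rw [ent0, hn1, hn2]
    fin_cases j
    · change (1 + X * -C N.1.1) * (1 + X * C N.1.1) + X * -C N.1.2.1 * (X * C N.1.2.2) = 1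
      linear_combination (- X ^ 2) * h2
    · change (1 + X * -C N.1.1) * (X * C N.1.2.1) + X * -C N.1.2.1 * (1 - X * C N.1.1) = 0
      ring
  · change (st (X : (ZMod p)[X]) (neg N) * st (X : (ZMod p)[X]) N).1 1 _ = (1 : Matrix (Fin 2) (Fin 2) (ZMod p)[X]) 1 _
    rw [ent1, hn1, hn3]
    fin_cases j
    · change X * -C N.1.2.2 * (1 + X * C N.1.1) + (1 - X * -C N.1.1) * (X * C N.1.2.2) = 0
      ring
    · change X * -C N.1.2.2 * (X * C N.1.2.1) + (1 - X * -C N.1.1) * (1 - X * C N.1.1) = 1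
      linear_combination (- X ^ 2) * h2

theorem dg_step' (N : NilT p) (γ : SL2 (ZMod p)[X]) :
    dg γ ≤ dg (st (X : (ZMod p)[X]) N * γ) + 1 := by
  have h := dg_step (neg N) (st (X : (ZMod p)[X]) N * γ)
  rwa [← mul_assoc, st_neg, one_mul] at h

theorem nil_ext {N N' : NilT p} (h1 : N.1.1 = N'.1.1) (h2 : N.1.2.1 = N'.1.2.1)
    (h3 : N.1.2.2 = N'.1.2.2) : N = N' :=
  Subtype.ext (Prod.ext h1 (Prod.ext h2 h3))

theorem card_nil (p : ℕ) [Fact p.Prime] : Fintype.card (NilT p) ≤ p ^ 2 := by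
  classical
  have h : Function.Injective (fun N : NilT p =>
      ((N.1.2.1, if N.1.2.1 = 0 then N.1.2.2 else N.1.1) : ZMod p × ZMod p)) := by
    intro N N' e
    have e1 : N.1.2.1 = N'.1.2.1 := (Prod.ext_iff.1 e).1
    have e2 : (if N.1.2.1 = 0 then N.1.2.2 else N.1.1) =
      (if N'.1.2.1 = 0 then N'.1.2.2 else N'.1.1) := (Prod.ext_iff.1 e).2
    have n1 := N.2
    have n2 := N'.2
    rw [← e1] at e2 n2
    by_cases hb : N.1.2.1 = 0
    · rw [if_pos hb, if_pos hb] at e2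
      rw [hb, zero_mul, add_zero, mul_self_eq_zero] at n1 n2
      exact nil_ext (n1.trans n2.symm) e1 e2
    · rw [if_neg hb, if_neg hb] at e2
      refine nil_ext e2 e1 ?_
      rw [← e2] at n2
      have h3 : N.1.2.1 * N.1.2.2 = N.1.2.1 * N'.1.2.2 := by linear_combination n1 - n2
      exact mul_left_cancel₀ hb h3
  have h2 := Fintype.card_le_of_injective _ h
  rw [Fintype.card_prod, ZMod.card] at h2
  rw [pow_two]
  exact h2

theorem card_ker (p : ℕ) [Fact p.Prime] (u0 u1 : ZMod p) (hu : u0 ≠ 0 ∨ u1 ≠ 0)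
    (s : Finset (NilT p))
    (hs : ∀ N ∈ s, N.1.1 * u0 + N.1.2.1 * u1 = 0 ∧ N.1.2.2 * u0 - N.1.1 * u1 = 0) :
    s.card ≤ p := by
  classical
  have h2 : s.card ≤ (Finset.univ : Finset (ZMod p)).card := by
    refine Finset.card_le_card_of_injOn (fun N => if u0 = 0 then N.1.2.2 else N.1.2.1)
      (fun _ _ => Finset.mem_coe.2 (Finset.mem_univ _)) ?_
    intro N hN N' hN' e
    obtain ⟨a1, a2⟩ := hs N hN
    obtain ⟨b1, b2⟩ := hs N' hN'
    by_cases h0 : u0 = 0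
    · have h1 : u1 ≠ 0 := by
        rcases hu with h | h
        · exact absurd h0 h
        · exact h
      simp only [if_pos h0] at e
      subst h0
      simp only [mul_zero, zero_add, zero_sub, neg_eq_zero, mul_eq_zero, h1, or_false] at a1 a2 b1 b2
      exact nil_ext (a2.trans b2.symm) (a1.trans b1.symm) e
    · simp only [if_neg h0] at e
      have e1 : N.1.1 * u0 = N'.1.1 * u0 := by
        rw [← e] at b1
        linear_combination a1 - b1
      have e2 := mul_right_cancel₀ h0 e1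
      have e3 : N.1.2.2 * u0 = N'.1.2.2 * u0 := by
        rw [← e2] at b2
        linear_combination a2 - b2
      exact nil_ext e2 e (mul_right_cancel₀ h0 e3)
  rwa [Finset.card_univ, ZMod.card] at h2

theorem card_one (p : ℕ) [Fact p.Prime] (u0 u1 v0 v1 : ZMod p) (hu : u0 ≠ 0 ∨ u1 ≠ 0)
    (s : Finset (NilT p))
    (hs : ∀ N ∈ s, N.1.1 * u0 + N.1.2.1 * u1 = 0 ∧ N.1.2.2 * u0 - N.1.1 * u1 = 0)
    (ht : ∀ N ∈ s, u0 + N.1.1 * v0 + N.1.2.1 * v1 = 0 ∧
      N.1.2.2 * v0 + (u1 - N.1.1 * v1) = 0) :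
    s.card ≤ 1 := by
  rw [Finset.card_le_one]
  intro N hN N' hN'
  obtain ⟨a1, a2⟩ := hs N hN
  obtain ⟨b1, b2⟩ := hs N' hN'
  obtain ⟨c1, c2⟩ := ht N hN
  obtain ⟨d1, d2⟩ := ht N' hN'
  by_cases h0 : u0 = 0
  · have h1 : u1 ≠ 0 := by
      rcases hu with h | h
      · exact absurd h0 h
      · exact h
    subst h0
    simp only [mul_zero, zero_add, zero_sub, neg_eq_zero, mul_eq_zero, h1, or_false] at a1 a2 b1 b2
    rw [a2, zero_mul, sub_zero] at c2
    rw [b2, zero_mul, sub_zero] at d2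
    have e1 : (N.1.2.2 - N'.1.2.2) * v0 = 0 := by linear_combination c2 - d2
    rcases mul_eq_zero.1 e1 with e2 | e2
    · exact nil_ext (a2.trans b2.symm) (a1.trans b1.symm) (sub_eq_zero.1 e2)
    · rw [e2, mul_zero, zero_add] at c2
      exact absurd c2 h1
  · have k1 : N.1.2.1 * (v1 * u0 - v0 * u1) = - u0 * u0 := by
      linear_combination u0 * c1 - v0 * a1
    have k2 : N'.1.2.1 * (v1 * u0 - v0 * u1) = - u0 * u0 := by
      linear_combination u0 * d1 - v0 * b1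
    have k3 : (v1 * u0 - v0 * u1) ≠ 0 := by
      intro h
      rw [h, mul_zero] at k1
      have : u0 * u0 = 0 := by linear_combination k1
      exact h0 (mul_self_eq_zero.1 this)
    have e : N.1.2.1 = N'.1.2.1 := mul_right_cancel₀ k3 (k1.trans k2.symm)
    have e1 : N.1.1 * u0 = N'.1.1 * u0 := by
      rw [← e] at b1
      linear_combination a1 - b1
    have e2 := mul_right_cancel₀ h0 e1
    have e3 : N.1.2.2 * u0 = N'.1.2.2 * u0 := by
      rw [← e2] at b2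
      linear_combination a2 - b2
    exact nil_ext e2 e (mul_right_cancel₀ h0 e3)

theorem ex_col [Fact p.Prime] (γ : SL2 (ZMod p)[X]) :
    ∃ j, (γ.1 0 j).coeff (dg γ) ≠ 0 ∨ (γ.1 1 j).coeff (dg γ) ≠ 0 := by
  by_contra hcon
  push Not at hcon
  have h0 : ∀ i j, (γ.1 i j).coeff (dg γ) = 0 := by
    intro i j
    fin_cases i
    · exact (hcon j).1
    · exact (hcon j).2
  by_cases hr : dg γ = 0
  · have h1 : ∀ i j, γ.1 i j = 0 := by
      intro i j
      have h2 : (γ.1 i j).natDegree ≤ 0 := by rw [← hr]; exact le_dg γ i j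
      rw [eq_C_of_natDegree_le_zero h2]
      have h3 := h0 i j
      rw [hr] at h3
      rw [h3, C_0]
    have h4 : γ.1.det = 1 := γ.2
    rw [Matrix.det_fin_two, h1 0 0, h1 0 1] at h4
    simp at h4
  · obtain ⟨i, j, hij⟩ := ex_dg γ
    have h2 := h0 i j
    rw [← hij] at h2
    have h3 : γ.1 i j = 0 := leadingCoeff_eq_zero.1 h2
    rw [h3, natDegree_zero] at hij
    exact hr hij.symm

theorem drift : S_DRIFT := by
  intro p hp γ
  classical
  have hp1 : (1 : ℝ) ≤ p := by exact_mod_cast hp.out.one_lt.le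
  have hp0 : (0 : ℝ) < p := by linarith
  obtain ⟨j, hj⟩ := ex_col γ
  set r := dg γ with hr
  set u0 := (γ.1 0 j).coeff r with hu0
  set u1 := (γ.1 1 j).coeff r with hu1
  have lt0 : ∀ i n, dg γ < n → (γ.1 i j).coeff n = 0 := fun i n hn =>
    coeff_eq_zero_of_natDegree_lt (lt_of_le_of_lt (le_dg γ i j) hn)
  -- classes
  let P : NilT p → Prop := fun N => N.1.1 * u0 + N.1.2.1 * u1 = 0 ∧ N.1.2.2 * u0 - N.1.1 * u1 = 0
  let Q : NilT p → Prop := fun N => P N ∧ dg (st (X : (ZMod p)[X]) N * γ) < r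
  have cP : (Finset.univ.filter P).card ≤ p :=
    card_ker p u0 u1 hj _ fun N hN => (Finset.mem_filter.1 hN).2
  have cQ : (Finset.univ.filter Q).card ≤ 1 := by
    by_cases hr0 : r = 0
    · have : Finset.univ.filter Q = ∅ := by
        rw [Finset.filter_eq_empty_iff]
        intro N _ hN
        have := hN.2
        omega
      rw [this]
      simp
    · obtain ⟨m, hm⟩ : ∃ m, r = m + 1 := ⟨r - 1, by omega⟩
      refine card_one p u0 u1 ((γ.1 0 j).coeff m) ((γ.1 1 j).coeff m) hj _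
        (fun N hN => (Finset.mem_filter.1 hN).2.1) fun N hN => ?_
      have hlt := (Finset.mem_filter.1 hN).2.2
      have z : ∀ i, ((st (X : (ZMod p)[X]) N * γ).1 i j).coeff (m + 1) = 0 := fun i =>
        coeff_eq_zero_of_natDegree_lt (lt_of_le_of_lt (le_dg _ i j) (by omega))
      have z0 := z 0
      have z1 := z 1
      rw [coef0] at z0
      rw [coef1] at z1
      rw [hu0, hu1, hm]
      exact ⟨z0, z1⟩
  have pt : ∀ N : NilT p, ((p : ℝ) ^ dg (st X N * γ))⁻¹ ≤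
      ((p : ℝ) ^ (r + 1))⁻¹ + (if P N then ((p : ℝ) ^ r)⁻¹ else 0) +
        (if Q N then p * ((p : ℝ) ^ r)⁻¹ else 0) := by
    intro N
    have q1 : 0 ≤ ((p : ℝ) ^ (r + 1))⁻¹ := by positivity
    have q2 : 0 ≤ ((p : ℝ) ^ r)⁻¹ := by positivity
    by_cases hP : P N
    · by_cases hQ : Q N
      · rw [if_pos hP, if_pos hQ]
        have h1 : ((p : ℝ) ^ dg (st X N * γ))⁻¹ ≤ p * ((p : ℝ) ^ r)⁻¹ := by
          rw [inv_le_iff_one_le_mul₀ (by positivity)]
          have h2 : r ≤ dg (st X N * γ) + 1 := dg_step' N γ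
          have h3 : (p : ℝ) ^ r ≤ (p : ℝ) ^ (dg (st X N * γ) + 1) := pow_le_pow_right₀ hp1 h2
          rw [pow_succ] at h3
          have h4 : (p : ℝ) ^ r * ((p : ℝ) ^ r)⁻¹ = 1 := mul_inv_cancel₀ (by positivity)
          calc (1 : ℝ) = (p : ℝ) ^ r * ((p : ℝ) ^ r)⁻¹ := h4.symm
            _ ≤ ((p : ℝ) ^ dg (st X N * γ) * p) * ((p : ℝ) ^ r)⁻¹ := by gcongr
            _ = _ := by ring
        linarith
      · rw [if_pos hP, if_neg hQ]
        have h1 : r ≤ dg (st X N * γ) := by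
          by_contra h
          exact hQ ⟨hP, not_le.1 h⟩
        have h2 : ((p : ℝ) ^ dg (st X N * γ))⁻¹ ≤ ((p : ℝ) ^ r)⁻¹ := by
          gcongr
        linarith
    · have hQ : ¬ Q N := fun h => hP h.1
      rw [if_neg hP, if_neg hQ]
      have h1 : r + 1 ≤ dg (st X N * γ) := by
        by_contra h
        apply hP
        have z : ∀ i, ((st (X : (ZMod p)[X]) N * γ).1 i j).coeff (r + 1) = 0 := fun i =>
          coeff_eq_zero_of_natDegree_lt (lt_of_le_of_lt (le_dg _ i j) (by omega))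
        have z0 := z 0
        have z1 := z 1
        rw [coef0, lt0 0 (r + 1) (by omega), zero_add] at z0
        rw [coef1, lt0 1 (r + 1) (by omega), zero_sub, ← sub_eq_add_neg] at z1
        exact ⟨z0, z1⟩
      have h2 : ((p : ℝ) ^ dg (st X N * γ))⁻¹ ≤ ((p : ℝ) ^ (r + 1))⁻¹ := by
        gcongr
      linarith
  have q2 : 0 ≤ ((p : ℝ) ^ r)⁻¹ := by positivity
  have cA : (Fintype.card (NilT p) : ℝ) ≤ (p : ℝ) ^ 2 := by exact_mod_cast card_nil p
  have cP' : ((Finset.univ.filter P).card : ℝ) ≤ p := by exact_mod_cast cP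
  have cQ' : ((Finset.univ.filter Q).card : ℝ) ≤ 1 := by exact_mod_cast cQ
  calc ∑ N : NilT p, ((p : ℝ) ^ dg (st X N * γ))⁻¹
      ≤ ∑ N : NilT p, (((p : ℝ) ^ (r + 1))⁻¹ + (if P N then ((p : ℝ) ^ r)⁻¹ else 0) +
        (if Q N then p * ((p : ℝ) ^ r)⁻¹ else 0)) := Finset.sum_le_sum fun N _ => pt N
    _ = Fintype.card (NilT p) * ((p : ℝ) ^ (r + 1))⁻¹ +
        (Finset.univ.filter P).card * ((p : ℝ) ^ r)⁻¹ +
        (Finset.univ.filter Q).card * (p * ((p : ℝ) ^ r)⁻¹) := by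
        rw [Finset.sum_add_distrib, Finset.sum_add_distrib, ← Finset.sum_filter,
          ← Finset.sum_filter, Finset.sum_const, Finset.sum_const, Finset.sum_const,
          Finset.card_univ]
        simp only [nsmul_eq_mul]
    _ ≤ (p : ℝ) ^ 2 * ((p : ℝ) ^ (r + 1))⁻¹ + p * ((p : ℝ) ^ r)⁻¹ +
        1 * (p * ((p : ℝ) ^ r)⁻¹) := by gcongr
    _ = 3 * p * ((p : ℝ) ^ r)⁻¹ := by
        rw [pow_succ (p : ℝ) r, mul_inv]
        field_simp
        ring
    _ ≤ 4 * p * ((p : ℝ) ^ r)⁻¹ := by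
        gcongr
        norm_num

end Pool.Agent.Y344.CE.Drift
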